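import Pool.Agent.R98.Moments
import Pool.Agent.R98.EvenGap
import Pool.Agent.R98.Chain

/-!
# Packing the progressions `{d, 2d, ..., nd}`, `d = 1, ..., n`

The conjecture `M(n) ~ n ^ 3 / (6 ln n)` is false: `M(n) ≥ (1 / 6 + c) n ^ 3 / ln n` for all
large `n`, with an absolute constant `c > 0`.

The differences `2 w` with `w` prime, `n / 8 < w ≤ n / 4`, interact with all odd primes other than
`w`, and cost a positive proportion of the total length.
-/

set_option autoImplicit false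

open Finset Filter Topology

namespace Pool.Agent.Results.MP_0e9c37_co.Disproof

open Pool.Agent.R98 Pool.Agent.R98.EvenGap

/-- `B_d = {d, 2d, ..., nd}` -/
def B (n d : ℕ) : Finset ℤ := (Icc 1 n).image (fun v : ℕ => (v : ℤ) * d)

/-- The sets `B_1, ..., B_n` pack into `{1, ..., m}`: there are integer translates `s_d + B_d`
inside `{1, ..., m}` which are pairwise disjoint. -/
def PacksInto (n m : ℕ) : Prop :=
  ∃ s : ℕ → ℤ, (∀ d ∈ Icc 1 n, ∀ a ∈ B n d, 1 ≤ s d + a ∧ s d + a ≤ m) ∧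
    ∀ d ∈ Icc 1 n, ∀ e ∈ Icc 1 n, d ≠ e → ∀ a ∈ B n d, ∀ b ∈ B n e, s d + a ≠ s e + b

/-- `M(n)`: the least `m` such that the sets `B_1, ..., B_n` pack into `{1, ..., m}`. -/
noncomputable def M (n : ℕ) : ℕ := sInf {m : ℕ | PacksInto n m}

lemma mem_packs {n m : ℕ} (h : PacksInto n m) (hn : 1 ≤ n) :
    ∃ y : ℕ → ℤ, Dis n y ∧ ∀ d, 1 ≤ d → d ≤ n → 1 ≤ y d ∧ y d ≤ m := by
  obtain ⟨s, h1, h2⟩ := h
  have hB : ∀ d u : ℕ, u < n → ((u : ℤ) + 1) * d ∈ B n d := by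
    intro d u hu
    rw [B, Finset.mem_image]
    exact ⟨u + 1, Finset.mem_Icc.2 ⟨Nat.succ_pos u, hu⟩, by push_cast; ring⟩
  refine ⟨fun d => s d + d, ?_, ?_⟩
  · intro d e hd hdn he hen hde u hu v hv heq
    apply h2 d (Finset.mem_Icc.2 ⟨hd, hdn⟩) e (Finset.mem_Icc.2 ⟨he, hen⟩) hde _ (hB d u hu) _
      (hB e v hv)
    simp only at heq
    linarith
  · intro d hd hdn
    have := h1 d (Finset.mem_Icc.2 ⟨hd, hdn⟩) _ (hB d 0 hn)
    push_cast at this
    constructor <;> linarith [this.1, this.2]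

lemma exists_packsInto (n : ℕ) : ∃ m, PacksInto n m := by
  obtain ⟨s, h1, h2⟩ := packs_trivial (S := Icc 1 n) (N := fun _ => n) (L := n * n)
    (fun d hd => (Finset.mem_Icc.1 hd).1) (fun d hd => Nat.mul_le_mul_left _ (Finset.mem_Icc.1 hd).2)
  refine ⟨(Icc 1 n).card * (n * n), s, ?_, ?_⟩
  · intro d hd a ha
    obtain ⟨v, hv, rfl⟩ := Finset.mem_image.1 ha
    exact h1 d hd v hv
  · intro d hd e he hde a ha b hb
    obtain ⟨v, hv, rfl⟩ := Finset.mem_image.1 ha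
    obtain ⟨w, hw, rfl⟩ := Finset.mem_image.1 hb
    exact h2 d hd e he hde v hv w hw

lemma packsInto_M (n : ℕ) : PacksInto n (M n) := Nat.sInf_mem (exists_packsInto n)

/-- the lower bound for `M n` -/
lemma lower (n : ℕ) (hn : 100 ≤ n) :
    ((blk 8 1 n).card : ℤ) * (n : ℤ) ^ 2 + 6528 * ∑ p ∈ primesTo n, ((n : ℤ) * p - (p : ℤ) ^ 2)
      ≤ 6528 * M n + 30000 * (n : ℤ) ^ 2 := by
  classical
  obtain ⟨y, hdis, hy⟩ := mem_packs (packsInto_M n) (by omega)
  have hR : ∀ w ∈ blk 8 1 n, w.Prime ∧ n < 8 * w ∧ 4 * w ≤ n := by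
    intro w hw
    rw [blk, Finset.mem_filter, Finset.mem_Ioc] at hw
    refine ⟨hw.2, by omega, by omega⟩
  set P := (primesTo n).filter (fun p => 3 ≤ p ∧ p + 1 ≤ n) with hPdef
  have hP : ∀ p, p ∈ P ↔ p.Prime ∧ 3 ≤ p ∧ p + 1 ≤ n := by
    intro p
    rw [hPdef, Finset.mem_filter, primesTo, Finset.mem_filter, Finset.mem_Icc]
    constructor
    · rintro ⟨⟨_, h1⟩, h2, h3⟩; exact ⟨h1, h2, h3⟩
    · rintro ⟨h1, h2, h3⟩; exact ⟨⟨⟨by omega, by omega⟩, h1⟩, h2, h3⟩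
  have m0 := main_ineq hdis hn hy ((blk 8 1 n).filter (fun w => (2 : ℤ) ∣ y (2 * w)))
    (fun w hw => hR w (Finset.mem_filter.1 hw).1) (by
      intro w hw w' hw'
      exact dvd_sub (Finset.mem_filter.1 hw').2 (Finset.mem_filter.1 hw).2) P hP
  have m1 := main_ineq hdis hn hy ((blk 8 1 n).filter (fun w => ¬ (2 : ℤ) ∣ y (2 * w)))
    (fun w hw => hR w (Finset.mem_filter.1 hw).1) (by
      intro w hw w' hw'
      have a1 := (Finset.mem_filter.1 hw').2
      have a2 := (Finset.mem_filter.1 hw).2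
      omega) P hP
  have hcard := Finset.card_filter_add_card_filter_not (s := blk 8 1 n)
    (fun w => (2 : ℤ) ∣ y (2 * w))
  have hcard' : (((blk 8 1 n).filter (fun w => (2 : ℤ) ∣ y (2 * w))).card : ℤ)
      + (((blk 8 1 n).filter (fun w => ¬ (2 : ℤ) ∣ y (2 * w))).card : ℤ)
      = ((blk 8 1 n).card : ℤ) := by exact_mod_cast hcard
  -- from `P` to all primes
  have hn2 : (100 : ℤ) ≤ n := by exact_mod_cast hn
  have h1 : ∑ p ∈ primesTo n, ((n : ℤ) * p - (p : ℤ) ^ 2)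
      ≤ ∑ p ∈ P, ((n : ℤ) * p - (p : ℤ) ^ 2) + 2 * n := by
    rw [← Finset.sum_filter_add_sum_filter_not (primesTo n) (fun p => 3 ≤ p ∧ p + 1 ≤ n), ← hPdef]
    apply add_le_add_right
    have h2 : (primesTo n).filter (fun p => ¬ (3 ≤ p ∧ p + 1 ≤ n)) ⊆ {2, n} := by
      intro p hp
      rw [Finset.mem_filter, primesTo, Finset.mem_filter, Finset.mem_Icc] at hp
      have := hp.1.2.two_le
      simp only [Finset.mem_insert, Finset.mem_singleton]
      omega
    calc ∑ p ∈ (primesTo n).filter (fun p => ¬ (3 ≤ p ∧ p + 1 ≤ n)), ((n : ℤ) * p - (p : ℤ) ^ 2)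
        ≤ ∑ p ∈ ({2, n} : Finset ℕ), ((n : ℤ) * p - (p : ℤ) ^ 2) := by
          apply Finset.sum_le_sum_of_subset_of_nonneg h2
          intro p hp _
          simp only [Finset.mem_insert, Finset.mem_singleton] at hp
          rcases hp with rfl | rfl
          · push_cast; linarith
          · nlinarith
      _ = ((n : ℤ) * (2 : ℕ) - ((2 : ℕ) : ℤ) ^ 2) + ((n : ℤ) * n - (n : ℤ) ^ 2) := by
          rw [Finset.sum_pair (by omega)]
      _ ≤ 2 * n := by push_cast; nlinarith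
  have h3 : ∑ p ∈ P, ((n : ℤ) * p - (p : ℤ) ^ 2)
      = ∑ p ∈ P, (((n : ℤ) - 1) * p - (p : ℤ) ^ 2) + ∑ p ∈ P, (p : ℤ) := by
    rw [← Finset.sum_add_distrib]
    apply Finset.sum_congr rfl
    intro p _
    ring
  have h5 : ∑ p ∈ P, (p : ℤ) ≤ (n : ℤ) ^ 2 := by
    calc ∑ p ∈ P, (p : ℤ) ≤ ∑ p ∈ P, (n : ℤ) := by
          apply Finset.sum_le_sum
          intro p hp
          have := (hP p).1 hp
          exact_mod_cast (by omega : p ≤ n)
      _ = P.card * (n : ℤ) := by rw [Finset.sum_const, nsmul_eq_mul]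
      _ ≤ n * (n : ℤ) := by
          have : P.card ≤ n := by
            calc P.card ≤ (primesTo n).card := Finset.card_filter_le _ _
              _ ≤ (Icc 1 n).card := Finset.card_filter_le _ _
              _ = n := by simp
          exact_mod_cast Nat.mul_le_mul_right n this
      _ = (n : ℤ) ^ 2 := by ring
  nlinarith

/-- The conjecture `M(n) ~ n ^ 3 / (6 ln n)` fails: `M(n) ln n / n ^ 3` is eventually larger than
a constant `c > 1 / 6`. -/
theorem result :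
    (∀ n, IsLeast {m : ℕ | PacksInto n m} (M n)) ∧
    (∃ c : ℝ, 1 / 6 < c ∧ ∀ᶠ n : ℕ in atTop, c ≤ (M n : ℝ) * Real.log n / (n : ℝ) ^ 3) ∧
    ¬ Tendsto (fun n : ℕ => (M n : ℝ) * Real.log n / (n : ℝ) ^ 3) atTop (𝓝 (1 / 6)) := by
  have main : ∀ᶠ n : ℕ in atTop, (1 : ℝ) / 6 + 1 / 60000 ≤
      (M n : ℝ) * Real.log n / (n : ℝ) ^ 3 := by
    have hlog0 : Tendsto (fun n : ℕ => Real.log n / (n : ℝ)) atTop (𝓝 0) := by
      have h := Real.isLittleO_log_id_atTop.tendsto_div_nhds_zero.comp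
        (tendsto_natCast_atTop_atTop (R := ℝ))
      exact h
    have hmom : Tendsto (fun n : ℕ => (∑ p ∈ primesTo n, (p : ℝ)) * Real.log n / n ^ 2
        - (∑ p ∈ primesTo n, (p : ℝ) ^ 2) * Real.log n / n ^ 3
        + (1 / 6528) * (((blk 8 1 n).card : ℝ) * Real.log n / n)
        - (30000 / 6528) * (Real.log n / n)) atTop
        (𝓝 (1 / 2 - 1 / 3 + (1 / 6528) * (1 / ((8 : ℕ) : ℝ)) - (30000 / 6528) * 0)) :=
      ((moment_one.sub moment_two).add ((tendsto_blk 8 1 (by norm_num)).const_mul _)).sub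
        (hlog0.const_mul _)
    have h1 := hmom.eventually_const_lt (show (1 : ℝ) / 6 + 1 / 60000 <
      1 / 2 - 1 / 3 + (1 / 6528) * (1 / ((8 : ℕ) : ℝ)) - (30000 / 6528) * 0 by norm_num)
    filter_upwards [h1, eventually_ge_atTop 100] with n hn hn3
    have hn0 : (0 : ℝ) < n := by exact_mod_cast (by omega : 0 < n)
    have hlog : 0 ≤ Real.log n := Real.log_natCast_nonneg n
    have h2 := lower n hn3
    have h3 : ((blk 8 1 n).card : ℝ) * (n : ℝ) ^ 2
        + 6528 * ∑ p ∈ primesTo n, ((n : ℝ) * p - (p : ℝ) ^ 2)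
        ≤ 6528 * M n + 30000 * (n : ℝ) ^ 2 := by
      exact_mod_cast h2
    have h4 : (((blk 8 1 n).card : ℝ) * (n : ℝ) ^ 2
        + 6528 * ∑ p ∈ primesTo n, ((n : ℝ) * p - (p : ℝ) ^ 2) - 30000 * (n : ℝ) ^ 2) / 6528
        * Real.log n / (n : ℝ) ^ 3 ≤ (M n : ℝ) * Real.log n / (n : ℝ) ^ 3 := by
      gcongr
      linarith
    refine le_trans (le_trans hn.le (le_of_eq ?_)) h4
    rw [Finset.sum_sub_distrib, ← Finset.mul_sum]
    field_simp
    ring
  refine ⟨fun n => ⟨packsInto_M n, fun m hm => Nat.sInf_le hm⟩,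
    ⟨1 / 6 + 1 / 60000, by norm_num, main⟩, ?_⟩
  intro hcon
  have h1 := hcon.eventually_lt_const (show (1 : ℝ) / 6 < 1 / 6 + 1 / 60000 by norm_num)
  obtain ⟨n, hn1, hn2⟩ := (main.and h1).exists
  linarith

end Pool.Agent.Results.MP_0e9c37_co.Disproof
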